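import Pool.Agent.R925.L.NF

/-!
# Sections of the twists by rotations are locally sections of rational points

Let `K` be a number field, `ℓ` a prime number, `m = ℓ^j` with `j ≥ 1`, and let `g ∈ O_K[x]` be a
polynomial such that the degree of `g(x^m)` is at least 3.  For `a, b ∈ O_K`, `b ≠ 0`, let `C_(a,b)` be
the smooth projective curve `b y^ℓ = g(a x^m)` over `K`.  The curves `C_(a,b)` are twists of the curve
`y^ℓ = g(x^m)` by its automorphisms `(x, y) ↦ (ζ x, ξ y)`, `ζ^m = 1`, `ξ^ℓ = 1`; every twist
`b y^ℓ = g(a x^m)` with `a, b ∈ Kˣ` is isomorphic to one with `a, b ∈ O_K`.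

Let `F = K(x, y)` be the function field of `C_(a,b)`, and let `M` be the maximal pro-`ℓ` extension of
`K̄ F` that is unramified over the curve, so that `Gal(M/F)` is the geometrically pro-`ℓ` fundamental
group of `C_(a,b)`, the quotient of `π₁(C_(a,b))` by the kernel of the map from the geometric
fundamental group to its pro-`ℓ` completion.

**Theorem.**  Let `s` be a section of `π₁(U) → G_K`, for `U = C_(a,b)` or an open subcurve `U`, or a
section of `Gal(M/F) → G_K`.  Let `v` be a prime of `K` such that

* `v` does not divide `ℓ` or the leading coefficient of `g`, and `g(x^m)` is separable modulo `v`,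
* the valuation of `a` at `v` is not divisible by `m`.

Let `V` be a place of `K̄` above `v`, with decomposition group `D_V ≅ Gal(K̄_v/K_v)`.  Then there is
exactly one valuation ring `W` of `M` above a point with `x = 0`, `x = ∞` or `y = 0` such that the
decomposition group of `W` contains the image of `D_V` in `Gal(M/F)` under `s`.  It lies above a point
with `x = 0` or `x = ∞`, and this point is rational over the henselisation of `K` at `v`.

So at all these primes `v` the local section `Gal(K̄_v/K_v) → Gal(M/F)` given by `s` is the section of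
a `K_v`-rational point of `C_(a,b)` with `x = 0` or `x = ∞`, and of exactly one such point.  The first
condition on `v` excludes only finitely many primes, which do not depend on `a` and `b`.  There is no
condition on `b`.  Here the sections are arbitrary; it is not assumed that they are locally geometric.
The points with `x = 0` are given by `b y^ℓ = g(0)`, and those with `x = ∞` by
`b z^ℓ = lc(g) a^(deg g)`, where `z = y x^(-m deg g/ℓ)`; hence if `v` satisfies the two conditions and
none of the two equations is solvable in `K_v`, then there are no sections.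

For quadratic twists `d y² = ∏ (x - e_k)` there are local results of this kind at primes `v` with `v(d)`
odd, in `MP_2f3286_ag.OnePointLocally`; the points are the branch points `(e_k, 0)`, and the local Galois groups act
on the good reduction through the hyperelliptic involution.  Here the inertia group at `v` acts on the
good reduction through automorphisms `(x, y) ↦ (ζ x, ξ y)` with `ζ ≠ 1`, and the order of the inertia
group's image can be `m = ℓ^j` with `j > 1`.

The fundamental group is described through valuations.  Let `U` be a smooth geometrically connected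
curve over `k` with function field `F`, let `Ω` be an algebraic closure of `F`, and let `F_U` be the
maximal extension of `F` inside `Ω` which is unramified over the closed points of `U`, that is, over
their local rings, which are valuation rings of `F`.  Then `π₁(U) = Gal(F_U/F)`, and the map
`π₁(U) → G_k` is the restriction of automorphisms to the algebraic closure of `k` in `Ω`.  The theorem
is stated for the sections of `Gal(N/F) → G_K` for all extensions `N ⊇ M` of `F` in `Ω`.

Proof.  Let `κ = K̄`, `ρ^m = a` and `δ^ℓ = b / lc(g)`, so that `X = ρ x` and `Y = δ y` satisfy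
`Y^ℓ = ∏ (X - e)`, where `e` runs through the roots of `g(x^m)`, and `σ ∈ G_K` acts by
`s(σ) X = (σρ/ρ) X`, `s(σ) Y = (σδ/δ) Y`.  (1) The Gauss valuation of `κ(X)` given by `V` has exactly
one prolongation `O` to `M`, and the group of the automorphisms `γ` of `M` over `κ` with
`γ(X) = ζ X`, `ζ^m = 1`, acts faithfully on the residue field of `O`; for `σ` in the inertia group of `V`
there is exactly one `γ_σ` with the same action as `s(σ)`.  (2) If `σ` is in the inertia group and
fixes `ρ` and `δ`, then `γ_σ = 1`.  This is a weight argument: the field `E = K(ρ, δ)` has a discrete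
valuation ring with finite residue field below `V`; by Kummer theory and the finiteness of the class
group of a function field over a finite field the action of the inertia group of `E` on the residue
field of `O` is trivial.  (3) Let `τ` be a generator of tame inertia modulo the elements which fix `ρ`
and `δ`.  Then `γ = γ_τ` satisfies `γ^m = 1` and `γ(X) = ζ X` with `ζ ≠ 1`, as the valuation of `a` is not
divisible by `m`.  A power `η` of `γ` has order `ℓ`, and it moves `X`.  (4) An automorphism `η` of order
`ℓ` of `M` over `κ` with `η(κ(X)) = κ(X)` fixes exactly one place `W` of `M`; it is above `X = 0` or `∞`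
because `η(X) ≠ X`.  By (2) `s(σ)` normalises the group generated by `γ` for all `σ ∈ D_V`, so it fixes
`W`.  (5) Uniqueness: a place `W'` above `X = 0` or `∞` which is fixed by `s(D_V)` is fixed by exactly
one `c` of order dividing `m` with `c(X) = ζ X`; it commutes with `s(τ)`, hence with `γ`, and
`γ c^(-1)`, which has finite order and fixes `X`, is trivial, as otherwise `c` would fix a place above a
branch point.  So `W'` is fixed by `γ = c`.
-/

open Polynomial NumberField IsDedekindDomain

namespace Pool.Agent.Results.MP_c1dca2_ag.TwistsByRotations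

section definitions

variable (ℓ : ℕ) (k F Ω : Type) [Field k] [Field F] [Field Ω] [Algebra k F] [Algebra F Ω]
  [Algebra k Ω]

/-- The inertia group of the valuation ring `W` of `Ω`, as a subgroup of `Gal(Ω/F)`: the
automorphisms of `Ω` over `F` that map `W` onto itself and act as the identity on its residue
field. -/
noncomputable def inertia (W : ValuationSubring Ω) : Subgroup (Ω ≃ₐ[F] Ω) :=
  (W.inertiaSubgroup F).map (W.decompositionSubgroup F).subtype

/-- `F_U`, for a set `U` of valuation rings of `F`: the elements of `Ω` fixed by the inertia groups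
of all valuation rings `W` of `Ω` with `W ∩ F ∈ U`.  If `Ω` is an algebraic closure of a field `F`
of characteristic zero, this is the maximal extension of `F` in `Ω` unramified over `U`. -/
noncomputable def unramified (U : Set (ValuationSubring F)) : IntermediateField F Ω :=
  ⨅ W : {W : ValuationSubring Ω // W.comap (algebraMap F Ω) ∈ U},
    IntermediateField.fixedField (inertia F Ω W.1)

/-- `k̄ F`, the compositum of `F` and of the algebraic closure of `k` in `Ω`. -/
noncomputable def geomField : IntermediateField F Ω :=
  IntermediateField.adjoin F (algebraicClosure k Ω : Set Ω)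

/-- The algebraic extension `L` of `K` in `Ω` is unramified at all valuation rings of `Ω` that
contain `k`: every nonzero element of `L` has the same valuation as an element of `K`.  (If `K` is
a function field of one variable over the algebraic closure of `k` and `k` has characteristic zero,
then this says that `L/K` is unramified over all points of the smooth projective curve.) -/
def Unramified {k K Ω : Type} [Field k] [Field K] [Field Ω] [Algebra k Ω] [Algebra K Ω]
    (L : IntermediateField K Ω) : Prop :=
  ∀ W : ValuationSubring Ω, (∀ c : k, algebraMap k Ω c ∈ W) → ∀ z ∈ L, z ≠ 0 →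
    ∃ t : K, t ≠ 0 ∧ z / algebraMap K Ω t ∈ W ∧ (z / algebraMap K Ω t)⁻¹ ∈ W

/-- `L/K` is a finite Galois extension whose degree is a power of `ℓ`. -/
def FiniteProEll (ℓ : ℕ) {K Ω : Type} [Field K] [Field Ω] [Algebra K Ω]
    (L : IntermediateField K Ω) : Prop :=
  FiniteDimensional K L ∧ IsGalois K L ∧ ∃ m : ℕ, Module.finrank K L = ℓ ^ m

/-- The maximal unramified pro-`ℓ` extension of `K` in `Ω`: the compositum of the finite Galois
extensions of `K` whose degree is a power of `ℓ` and which are unramified. -/
noncomputable def maxProEll (ℓ : ℕ) (k K Ω : Type) [Field k] [Field K] [Field Ω] [Algebra k Ω]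
    [Algebra K Ω] : IntermediateField K Ω :=
  ⨆ L : {L : IntermediateField K Ω // FiniteProEll ℓ L ∧ Unramified (k := k) L}, L.1

/-- `M`, the maximal unramified pro-`ℓ` extension of `k̄ F` in `Ω`, as an extension of `F`. -/
noncomputable def proEllField : IntermediateField F Ω :=
  (maxProEll ℓ k (geomField k F Ω) Ω).restrictScalars F

/-- The map `τ : M → M` acts as `σ : K → K` on the elements that the fields `K` and `M` have in
common when they are regarded as subfields of `Ω` through `i` and `j`. -/
def ActsAs {K M Ω : Type} [Field K] [Field M] [Field Ω] (i : K →+* Ω) (j : M →+* Ω) (σ : K → K)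
    (τ : M → M) : Prop :=
  ∀ c z, j z = i c → j (τ z) = i (σ c)

/-- Let `k ⊆ K ⊆ Ω` and `F ⊆ N ⊆ Ω` be fields.  A splitting of `Gal(N/F) → Gal(K/k)`: a continuous
homomorphism `s` from `Gal(K/k)` to `Gal(N/F)` such that `s(σ)` acts as `σ` on the elements of
`K ∩ N`. -/
structure Splitting (K N : Type) [Field K] [Field N] [Algebra k K] [Algebra F N] [Algebra K Ω]
    [Algebra N Ω] where
  /-- the homomorphism `Gal(K/k) → Gal(N/F)` -/
  toHom : (K ≃ₐ[k] K) →* (N ≃ₐ[F] N)
  cont : Continuous toHom
  compat : ∀ σ : K ≃ₐ[k] K, ActsAs (algebraMap K Ω) (algebraMap N Ω) σ (toHom σ)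

end definitions

section places

variable {k F N L Ω : Type} [Field k] [Field F] [Field N] [Field L] [Field Ω] [Algebra k F]
  [Algebra F Ω] [Algebra k Ω] [Algebra k L] [Algebra F N] [Algebra L Ω] [Algebra N Ω]

/-- The valuation ring `W` of `N` contains `k`, and the function `t ∈ F` is in its maximal ideal. -/
def ZeroAt (k : Type) {F N : Type} [Field k] [Field F] [Field N] [Algebra k F] [Algebra F N]
    (W : ValuationSubring N) (t : F) : Prop :=
  (∀ c : k, algebraMap F N (algebraMap k F c) ∈ W) ∧ algebraMap F N t ∈ W.nonunits

/-- The function `t ∈ F` has a zero or a pole at the valuation ring `W` of `N` over `k`. -/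
def ZeroOrPole (k : Type) {F N : Type} [Field k] [Field F] [Field N] [Algebra k F] [Algebra F N]
    (W : ValuationSubring N) (t : F) : Prop :=
  ZeroAt k W t ∨ ZeroAt k W t⁻¹

/-- The values at `W` of the functions in `F` without a pole there are in the decomposition field of
the valuation ring `V` of `L`: for every `z ∈ F ∩ W` there is a `c ∈ L`, fixed by all automorphisms of
`L` over `k` which map `V` to itself, such that `z - c` is in the maximal ideal of `W`. -/
def LocallyRational (k F Ω : Type) {N L : Type} [Field k] [Field F] [Field N] [Field L] [Field Ω]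
    [Algebra F Ω] [Algebra k L] [Algebra F N] [Algebra L Ω] [Algebra N Ω]
    (V : ValuationSubring L) (W : ValuationSubring N) : Prop :=
  ∀ z : F, algebraMap F N z ∈ W → ∃ c : L, (∀ σ : L ≃ₐ[k] L, (∀ c : L, σ c ∈ V ↔ c ∈ V) → σ c = c) ∧
    ∃ z' ∈ W.nonunits, algebraMap N Ω z' = algebraMap F Ω z - algebraMap L Ω c

/-- Let `D_V` be the decomposition group of the valuation ring `V` of `L` in `Gal(L/k)`.  The image of
`D_V` under `s : Gal(L/k) → Gal(N/F)` in `Gal(M/F)`, where `M ⊆ N ⊆ Ω`, is contained in the
decomposition group of the valuation ring `W ∩ M`. -/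
def LocallyIn (V : ValuationSubring L) (s : Splitting k F Ω L N) (M : IntermediateField F Ω)
    (W : ValuationSubring N) : Prop :=
  ∀ σ : L ≃ₐ[k] L, (∀ c : L, σ c ∈ V ↔ c ∈ V) →
    ∀ z : N, algebraMap N Ω z ∈ M → (s.toHom σ z ∈ W ↔ z ∈ W)

/-- The restriction of `s` to `D_V` is the section of exactly one point, a point with `x = 0` or
`x = ∞` which is rational over the decomposition field of `V`: there is a valuation ring `W` of `N`
above such a point such that the image of `D_V` in `Gal(M/F)` lies in the decomposition group of
`W ∩ M`, and `W ∩ M` is the only valuation ring of `M` above a point with `x = 0` or `x = ∞` or above a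
zero of the function `h` with this property. -/
def LocallyFromOnePoint (V : ValuationSubring L) (h x : F) (s : Splitting k F Ω L N)
    (M : IntermediateField F Ω) : Prop :=
  ∃ W : ValuationSubring N, ZeroOrPole k W x ∧ LocallyRational k F Ω V W ∧ LocallyIn V s M W ∧
    ∀ W' : ValuationSubring N, ZeroOrPole k W' x ∨ ZeroAt k W' h → LocallyIn V s M W' →
      ∀ z : N, algebraMap N Ω z ∈ M → (z ∈ W' ↔ z ∈ W)

end places

section curves

/-- `F = k(x, y)` is the function field of the curve `b y^ℓ = g(a x^m)`. -/
def IsFunctionField {k F : Type} [Field k] [Field F] [Algebra k F] (ℓ m : ℕ) (g : k[X]) (a b : k)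
    (x y : F) : Prop :=
  Transcendental k x ∧ algebraMap k F b * y ^ ℓ = aeval (algebraMap k F a * x ^ m) g ∧
    IntermediateField.adjoin k {x, y} = (⊤ : IntermediateField k F)

/-- The prime `v` of `K` does not divide `ℓ` or the leading coefficient of `g`, and `g(x^m)` is
separable modulo `v`. -/
def GoodPrime {K : Type} [Field K] (ℓ m : ℕ) (g : (𝓞 K)[X]) (v : HeightOneSpectrum (𝓞 K)) : Prop :=
  (ℓ : 𝓞 K) ∉ v.asIdeal ∧ g.leadingCoeff ∉ v.asIdeal ∧
    ((expand (𝓞 K) m g).map (Ideal.Quotient.mk v.asIdeal)).Separable

/-- The valuation of `a` at `v` is not divisible by `m`. -/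
def ValuationNotDivisible {K : Type} [Field K] (m : ℕ) (a : 𝓞 K) (v : HeightOneSpectrum (𝓞 K)) :
    Prop :=
  ∃ n : ℕ, a ∈ v.asIdeal ^ n ∧ a ∉ v.asIdeal ^ (n + 1) ∧ ¬ m ∣ n

/-- The valuation ring `V` of the extension `L` of `K` lies above the prime `v` of `K`. -/
def LiesAbove {K L : Type} [Field K] [Field L] [Algebra K L] (V : ValuationSubring L)
    (v : HeightOneSpectrum (𝓞 K)) : Prop :=
  ∀ c ∈ v.asIdeal, algebraMap K L (algebraMap (𝓞 K) K c) ∈ V.nonunits

/-- Let `F = K(x, y)` be the function field of the curve `C : b y^ℓ = g(a x^m)` over `K`, let `Ω` be an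
algebraic closure of `F` and `M = proEllField ℓ K F Ω`.  Then `M ⊆ F_U` for all sets `U` of valuation
rings of `F` over `K`, in particular for the set of all closed points of `C` and for its subsets.  Let
`N ⊇ M` be an extension of `F` in `Ω`, for instance `N = M` or `N = F_U`, and let `s` be a section of
`Gal(N/F) → G_K`.  Then for all good primes `v` of `K` at which the valuation of `a` is not divisible by
`m`, and for all valuation rings `V` of `K̄` above `v`, the section of `Gal(M/F) → G_K` induced by `s` is
on the decomposition group of `V` the section of exactly one point, which is a point with `x = 0` or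
`x = ∞` and is rational over the decomposition field of `V`. -/
def SectionsAreLocallyGeometric {K : Type} [Field K] (ℓ m : ℕ) (g : (𝓞 K)[X]) (a b : 𝓞 K) : Prop :=
  ∀ (F Ω : Type) [Field F] [Field Ω] [Algebra K F] [Algebra F Ω] [Algebra K Ω]
    [IsScalarTower K F Ω] [IsAlgClosure F Ω] (x y : F),
    IsFunctionField ℓ m (g.map (algebraMap (𝓞 K) K)) (algebraMap (𝓞 K) K a) (algebraMap (𝓞 K) K b)
      x y →
    (∀ U : Set (ValuationSubring F), (∀ O ∈ U, ∀ c : K, algebraMap K F c ∈ O) →
      proEllField ℓ K F Ω ≤ unramified F Ω U) ∧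
    ∀ N : IntermediateField F Ω, proEllField ℓ K F Ω ≤ N →
      ∀ s : Splitting K F Ω (algebraicClosure K Ω) N,
      ∀ v : HeightOneSpectrum (𝓞 K), GoodPrime ℓ m g v → ValuationNotDivisible m a v →
      ∀ V : ValuationSubring (algebraicClosure K Ω), LiesAbove V v →
        LocallyFromOnePoint V (aeval (algebraMap K F (algebraMap (𝓞 K) K a) * x ^ m)
          (g.map (algebraMap (𝓞 K) K))) x s (proEllField ℓ K F Ω)

end curves

lemma iSup_congr_prop {α : Type} [CompleteLattice α] {P Q : α → Prop} (h : ∀ L, P L ↔ Q L) :
    (⨆ L : {L // P L}, L.1) = ⨆ L : {L // Q L}, L.1 := by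
  have h1 : P = Q := funext fun L => propext (h L)
  subst h1
  rfl

lemma proEll_eq (ℓ : ℕ) (k F Ω : Type) [Field k] [Field F] [Field Ω] [Algebra k F] [Algebra F Ω]
    [Algebra k Ω] : proEllField ℓ k F Ω = Pool.Agent.Y157.PS.geomPro ℓ k F Ω := by
  unfold proEllField Pool.Agent.Y157.PS.geomPro maxProEll Pool.Agent.Y157.PS.maxPro
  congr 1
  refine iSup_congr_prop fun L => ?_
  constructor
  · rintro ⟨⟨h1, h2, h3⟩, h4⟩
    refine ⟨⟨h1, h2, h3⟩, fun W hW z hz hz0 => ?_⟩
    obtain ⟨t, ht, h5, h6⟩ := h4 W hW z hz hz0
    exact ⟨t, ht, div_ne_zero hz0 ((_root_.map_ne_zero _).2 ht), h5, h6⟩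
  · rintro ⟨⟨h1, h2, h3⟩, h4⟩
    refine ⟨⟨h1, h2, h3⟩, fun W hW z hz hz0 => ?_⟩
    obtain ⟨t, ht, -, h5, h6⟩ := h4 W hW z hz hz0
    exact ⟨t, ht, h5, h6⟩

/-- Let `K` be a number field, `ℓ` a prime number, `m = ℓ^j` with `j ≥ 1`, `g ∈ O_K[x]` a polynomial
such that the degree of `g(x^m)` is at least 3, and let `a, b ∈ O_K`, `b ≠ 0`.  Then at all primes `v` of
`K` with `v(a)` not divisible by `m` which do not divide `ℓ` or the leading coefficient of `g` and such
that `g(x^m)` is separable modulo `v`, every section of the fundamental group of the curve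
`b y^ℓ = g(a x^m)`, of its open subcurves, and of the geometrically pro-`ℓ` fundamental group of the
curve, induces locally on the latter the section of exactly one point with `x = 0`, `x = ∞` or `y = 0`;
this is a point with `x = 0` or `x = ∞` which is rational over the henselisation of `K` at `v`. -/
theorem result (K : Type) [Field K] [NumberField K] (ℓ : ℕ) [Fact ℓ.Prime] (j : ℕ) (hj : 1 ≤ j)
    (g : (𝓞 K)[X]) (h3 : 3 ≤ (expand (𝓞 K) (ℓ ^ j) g).natDegree) (a b : 𝓞 K) (hb : b ≠ 0) :
    SectionsAreLocallyGeometric ℓ (ℓ ^ j) g a b := by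
  intro F Ω _ _ _ _ _ _ _ x y hxyF
  obtain ⟨hx, hxy, hF⟩ := hxyF
  have hcl : IsAlgClosed Ω := IsAlgClosure.isAlgClosed F
  have halg : Algebra.IsAlgebraic F Ω := IsAlgClosure.isAlgebraic
  have hbK : algebraMap (𝓞 K) K b ≠ 0 := by
    rw [Ne, map_eq_zero_iff _ (IsFractionRing.injective (𝓞 K) K)]
    exact hb
  have hFx := Pool.Agent.R925.L.alg_eqn (Fact.out : ℓ.Prime).pos _ _ _ hbK x y hxy hF
  rw [proEll_eq]
  refine ⟨fun U hU => ?_, fun N hN s v hv hva V hV => ?_⟩
  · exact (Pool.Agent.Y157.PS.a_ind ℓ K F Ω x hx hFx U hU).1
  · obtain ⟨hvℓ, hlc, hs⟩ := hv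
    obtain ⟨n, hn, hn', hmn⟩ := hva
    obtain ⟨A, _, _, _, _, hfin, hfr, hℓA, ⟨f, hfg, hdeg, hlcA, hsA⟩, ⟨ϖ, t, hϖ, ht, hat⟩, hVA⟩ :=
      Pool.Agent.R925.L.nf_data v ℓ (ℓ ^ j) (pow_pos (Fact.out : ℓ.Prime).pos j) hvℓ g hlc hs a n
        hn hn'
    obtain ⟨hV1, hV2⟩ := hVA (algebraicClosure K Ω) V hV
    obtain ⟨W, ⟨⟨h1, h2, h3'⟩, h4⟩, hun⟩ :=
      Pool.Agent.R925.L.numRM (A := A) V hV1 hV2 hℓA hj f hlcA hsA (by rw [hdeg]; exact h3) ϖ hϖ _ _
        (n : ℤ) (fun h => hmn (by exact_mod_cast h)) t ht hat hbK x y hx
        (by rw [hxy, hfg]) hF N hN s.toHom s.cont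
        (fun σ c z hz => s.compat σ c z hz)
    refine ⟨W, h2.imp (fun h => ⟨h1, h⟩) (fun h => ⟨h1, h⟩), ?_, h4, fun W' b1 b2 => ?_⟩
    · exact h3'
    · rcases b1 with (b1 | b1) | b1
      · exact hun W' b1.1 (Or.inl b1.2) b2
      · exact hun W' b1.1 (Or.inr (Or.inl b1.2)) b2
      · refine hun W' b1.1 (Or.inr (Or.inr ?_)) b2
        rw [hfg]
        exact b1.2

end Pool.Agent.Results.MP_c1dca2_ag.TwistsByRotations
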